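import Mathlib

/-!
A counting argument: there is a Boolean matrix in which every pair of long injective row and column
lists contains every small pattern on a pair of blocks.
-/

namespace Pool.Agent.MP_b6cdd3_co.H71

open Finset Filter

lemma card_bad {E I D : Type} [Fintype E] [Fintype I] [Fintype D] [DecidableEq E] [DecidableEq I]
    [DecidableEq D] (φ : I × D → E) (hφ : Function.Injective φ) (τ : D → Bool) :
    (univ.filter fun ω : E → Bool => ∀ i, (fun d => ω (φ (i, d))) ≠ τ).card *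
      (2 ^ Fintype.card D) ^ Fintype.card I ≤
      (2 ^ Fintype.card D - 1) ^ Fintype.card I * 2 ^ Fintype.card E := by
  classical
  let C := {x : E // x ∉ Set.range φ}
  let S := univ.filter fun ω : E → Bool => ∀ i, (fun d => ω (φ (i, d))) ≠ τ
  let ψ : S → (I → {g : D → Bool // g ≠ τ}) × (C → Bool) := fun ω =>
    (fun i => ⟨fun d => ω.1 (φ (i, d)), (Finset.mem_filter.1 ω.2).2 i⟩, fun c => ω.1 c.1)
  have hψ : Function.Injective ψ := by
    intro ω ω' h
    apply Subtype.ext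
    funext x
    by_cases hx : x ∈ Set.range φ
    · obtain ⟨⟨i, d⟩, rfl⟩ := hx
      have h1 := congrFun (congrArg Prod.fst h) i
      exact congrFun (congrArg Subtype.val h1) d
    · exact congrFun (congrArg Prod.snd h) ⟨x, hx⟩
  have h1 := Fintype.card_le_of_injective ψ hψ
  rw [Fintype.card_coe, Fintype.card_prod, Fintype.card_fun, Fintype.card_fun,
    Fintype.card_subtype_compl, Fintype.card_fun, Fintype.card_bool] at h1
  simp only [Fintype.card_unique] at h1
  have h2 : Fintype.card C + Fintype.card D * Fintype.card I = Fintype.card E := by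
    have h3 : Fintype.card C = Fintype.card E - Fintype.card (Set.range φ) :=
      Fintype.card_subtype_compl _
    have h4 : Fintype.card (Set.range φ) = Fintype.card (I × D) := Set.card_range_of_injective hφ
    have h5 : Fintype.card (I × D) ≤ Fintype.card E := Fintype.card_le_of_injective φ hφ
    rw [h3, h4]
    rw [Fintype.card_prod] at h5 ⊢
    rw [mul_comm (Fintype.card D)]
    omega
  calc S.card * (2 ^ Fintype.card D) ^ Fintype.card I
      ≤ ((2 ^ Fintype.card D - 1) ^ Fintype.card I * 2 ^ Fintype.card C) *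
        (2 ^ Fintype.card D) ^ Fintype.card I := Nat.mul_le_mul_right _ h1
    _ = (2 ^ Fintype.card D - 1) ^ Fintype.card I * 2 ^ Fintype.card E := by
        rw [← h2, pow_add, pow_mul, mul_assoc]

lemma exists_B (m q : ℕ) (hm : 1 ≤ m) (hq : 1 ≤ q) : ∃ B : ℕ, 1 ≤ B ∧
    ((2 * (B * m)) ^ (B * m) * (2 * (B * m)) ^ (B * m) * q) * (q - 1) ^ (B * B) < q ^ (B * B) := by
  have hq' : (0 : ℝ) < q := by exact_mod_cast hq
  have hm' : (0 : ℝ) < m := by exact_mod_cast hm
  have h1 := Real.isLittleO_log_id_atTop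
  have hε : (0 : ℝ) < 1 / (8 * m ^ 2 * q) := by positivity
  have h2 := h1.def hε
  have h3 : Tendsto (fun B : ℕ => (2 * ((B : ℝ) * m))) atTop atTop := by
    apply Tendsto.const_mul_atTop (by norm_num)
    exact tendsto_natCast_atTop_atTop.atTop_mul_const hm'
  obtain ⟨B, hB1, hB2⟩ := ((h3.eventually h2).and (eventually_ge_atTop (2 * q * q + 1))).exists
  have hB : 1 ≤ B := by omega
  refine ⟨B, hB, ?_⟩
  have hB' : (0 : ℝ) < B := by exact_mod_cast hB
  set N : ℝ := 2 * ((B : ℝ) * m) with hN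
  have hNpos : 0 < N := by positivity
  simp only [id, Real.norm_eq_abs] at hB1
  rw [abs_of_pos hNpos] at hB1
  have hlog : Real.log N ≤ 1 / (8 * m ^ 2 * q) * N := (le_abs_self _).trans hB1
  have e1 : N ^ (B * m) * N ^ (B * m) ≤ Real.exp ((B : ℝ) * B / (2 * q)) := by
    rw [← pow_add, ← Real.exp_log (pow_pos hNpos _), Real.log_pow]
    apply Real.exp_le_exp.2
    have : ((B * m + B * m : ℕ) : ℝ) = N := by rw [hN]; push_cast; ring
    rw [this]
    calc N * Real.log N ≤ N * (1 / (8 * m ^ 2 * q) * N) := by gcongr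
      _ = (B : ℝ) * B / (2 * q) := by rw [hN]; field_simp; ring
  have e2 : (q : ℝ) < Real.exp ((B : ℝ) * B / (2 * q)) := by
    have a1 := Real.add_one_le_exp ((B : ℝ) * B / (2 * q))
    have a2 : (q : ℝ) ≤ (B : ℝ) * B / (2 * q) := by
      rw [le_div_iff₀ (by positivity)]
      have a3 : (2 * q * q + 1 : ℝ) ≤ B := by exact_mod_cast hB2
      have a4 : (1 : ℝ) ≤ B := by exact_mod_cast hB
      nlinarith
    linarith
  have e3 : ((q : ℝ) - 1) ^ (B * B) ≤ (q : ℝ) ^ (B * B) * Real.exp (-((B : ℝ) * B / q)) := by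
    have a1 : (q : ℝ) - 1 ≤ q * Real.exp (-(1 / q)) := by
      have a2 := Real.add_one_le_exp (-(1 / (q : ℝ)))
      calc (q : ℝ) - 1 = q * (-(1 / q) + 1) := by field_simp; ring
        _ ≤ q * Real.exp (-(1 / q)) := by gcongr
    have a3 : (0 : ℝ) ≤ (q : ℝ) - 1 := by
      have : (1 : ℝ) ≤ q := by exact_mod_cast hq
      linarith
    calc ((q : ℝ) - 1) ^ (B * B) ≤ (q * Real.exp (-(1 / q))) ^ (B * B) := by gcongr
      _ = (q : ℝ) ^ (B * B) * Real.exp (-((B : ℝ) * B / q)) := by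
          rw [mul_pow, ← Real.exp_nat_mul]
          congr 2
          push_cast
          ring
  have e4 : (N ^ (B * m) * N ^ (B * m) * q) * ((q : ℝ) - 1) ^ (B * B) < (q : ℝ) ^ (B * B) := by
    have a1 : N ^ (B * m) * N ^ (B * m) * q <
        Real.exp ((B : ℝ) * B / (2 * q)) * Real.exp ((B : ℝ) * B / (2 * q)) := by
      calc N ^ (B * m) * N ^ (B * m) * q ≤ Real.exp ((B : ℝ) * B / (2 * q)) * q := by gcongr
        _ < _ := by gcongr
    have a2 : Real.exp ((B : ℝ) * B / (2 * q)) * Real.exp ((B : ℝ) * B / (2 * q)) *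
        Real.exp (-((B : ℝ) * B / q)) = 1 := by
      rw [← Real.exp_add, ← Real.exp_add, ← Real.exp_zero]
      congr 1
      field_simp
      ring
    calc (N ^ (B * m) * N ^ (B * m) * q) * ((q : ℝ) - 1) ^ (B * B)
        ≤ (N ^ (B * m) * N ^ (B * m) * q) *
          ((q : ℝ) ^ (B * B) * Real.exp (-((B : ℝ) * B / q))) := by gcongr
      _ < (Real.exp ((B : ℝ) * B / (2 * q)) * Real.exp ((B : ℝ) * B / (2 * q))) *
          ((q : ℝ) ^ (B * B) * Real.exp (-((B : ℝ) * B / q))) := by gcongr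
      _ = (q : ℝ) ^ (B * B) * (Real.exp ((B : ℝ) * B / (2 * q)) *
          Real.exp ((B : ℝ) * B / (2 * q)) * Real.exp (-((B : ℝ) * B / q))) := by ring
      _ = (q : ℝ) ^ (B * B) := by rw [a2, mul_one]
  have e5 : (((q - 1 : ℕ)) : ℝ) = (q : ℝ) - 1 := by
    rw [Nat.cast_sub hq]; simp
  rw [← e5, hN] at e4
  exact_mod_cast e4

theorem exists_matrix (m : ℕ) (hm : 1 ≤ m) : ∃ B : ℕ, 1 ≤ B ∧
    ∃ ω : Fin (2 * (B * m)) × Fin (2 * (B * m)) → Bool,
      ∀ α β : Fin B × Fin m → Fin (2 * (B * m)), Function.Injective α → Function.Injective β →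
        ∀ τ : Fin m × Fin m → Bool, ∃ i j : Fin B, ∀ a b, ω (α (i, a), β (j, b)) = τ (a, b) := by
  classical
  obtain ⟨B, hB, hlt⟩ := exists_B m (2 ^ (m * m)) hm Nat.one_le_two_pow
  refine ⟨B, hB, ?_⟩
  by_contra hcon
  push Not at hcon
  set N := 2 * (B * m) with hN
  let T := (Fin B × Fin m → Fin N) × (Fin B × Fin m → Fin N) × (Fin m × Fin m → Bool)
  let φ : T → (Fin B × Fin B) × (Fin m × Fin m) → Fin N × Fin N :=
    fun t p => (t.1 (p.1.1, p.2.1), t.2.1 (p.1.2, p.2.2))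
  let TT : Finset T := univ.filter fun t => Function.Injective t.1 ∧ Function.Injective t.2.1
  let Bad : T → Finset (Fin N × Fin N → Bool) := fun t =>
    univ.filter fun ω => ∀ i, (fun d => ω (φ t (i, d))) ≠ t.2.2
  have hcov : (univ : Finset (Fin N × Fin N → Bool)) ⊆ TT.biUnion Bad := by
    intro ω _
    obtain ⟨α, β, hα, hβ, τ, h⟩ := hcon ω
    refine Finset.mem_biUnion.2 ⟨(α, β, τ), by simp [TT, hα, hβ], ?_⟩
    simp only [Bad, Finset.mem_filter, mem_univ, true_and]
    rintro ⟨i, j⟩ hh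
    obtain ⟨a, b, hab⟩ := h i j
    exact hab (congrFun hh (a, b))
  have hbad : ∀ t ∈ TT, (Bad t).card * (2 ^ (m * m)) ^ (B * B) ≤
      (2 ^ (m * m) - 1) ^ (B * B) * 2 ^ (N * N) := by
    intro t ht
    obtain ⟨h1, h2⟩ := (Finset.mem_filter.1 ht).2
    have hφ : Function.Injective (φ t) := by
      rintro ⟨⟨i, j⟩, ⟨a, b⟩⟩ ⟨⟨i', j'⟩, ⟨a', b'⟩⟩ h
      simp only [φ, Prod.mk.injEq] at h
      have e1 := h1 h.1
      have e2 := h2 h.2
      simp only [Prod.mk.injEq] at e1 e2 ⊢
      exact ⟨⟨e1.1, e2.1⟩, e1.2, e2.2⟩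
    have := card_bad (φ t) hφ t.2.2
    simpa only [Fintype.card_prod, Fintype.card_fin] using this
  have h1 : 2 ^ (N * N) ≤ ∑ t ∈ TT, (Bad t).card := by
    have := (Finset.card_le_card hcov).trans Finset.card_biUnion_le
    simpa only [Finset.card_univ, Fintype.card_fun, Fintype.card_prod, Fintype.card_fin,
      Fintype.card_bool] using this
  have h2 : TT.card ≤ N ^ (B * m) * N ^ (B * m) * 2 ^ (m * m) := by
    have := Finset.card_le_univ TT
    simp only [T, Fintype.card_fun, Fintype.card_prod, Fintype.card_fin,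
      Fintype.card_bool] at this
    rw [mul_assoc]
    exact this
  have h3 : 2 ^ (N * N) * (2 ^ (m * m)) ^ (B * B) ≤
      (N ^ (B * m) * N ^ (B * m) * 2 ^ (m * m)) * ((2 ^ (m * m) - 1) ^ (B * B) * 2 ^ (N * N)) := by
    calc 2 ^ (N * N) * (2 ^ (m * m)) ^ (B * B)
        ≤ (∑ t ∈ TT, (Bad t).card) * (2 ^ (m * m)) ^ (B * B) := Nat.mul_le_mul_right _ h1
      _ = ∑ t ∈ TT, (Bad t).card * (2 ^ (m * m)) ^ (B * B) := Finset.sum_mul _ _ _
      _ ≤ TT.card * ((2 ^ (m * m) - 1) ^ (B * B) * 2 ^ (N * N)) := by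
          have := Finset.sum_le_card_nsmul TT _ _ hbad
          simpa only [smul_eq_mul] using this
      _ ≤ _ := Nat.mul_le_mul_right _ h2
  have h4 : (N ^ (B * m) * N ^ (B * m) * 2 ^ (m * m)) * (2 ^ (m * m) - 1) ^ (B * B) * 2 ^ (N * N) <
      (2 ^ (m * m)) ^ (B * B) * 2 ^ (N * N) :=
    Nat.mul_lt_mul_of_pos_right hlt (by positivity)
  rw [mul_assoc] at h4
  rw [mul_comm] at h3
  omega

end Pool.Agent.MP_b6cdd3_co.H71
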