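import Mathlib
import Pool.Agent.MP_b6cdd3_co.H71.Count

/-!
Cutting a circular order, and the ordering property of a suitable bipartite graph.
-/

namespace Pool.Agent.MP_b6cdd3_co.H71

open Finset

/-- Every circular order on a nonempty type comes from a linear order. -/
theorem exists_cut {V : Type} [CircularOrder V] (o : V) :
    ∃ l : LinearOrder V, ∀ x y z : V, sbtw x y z ↔
      (l.lt x y ∧ l.lt y z) ∨ (l.lt y z ∧ l.lt z x) ∨ (l.lt z x ∧ l.lt x y) := by
  classical
  let r : V → V → Prop := fun x y => (x = o ∧ y ≠ o) ∨ sbtw o x y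
  have hirr : ∀ x, ¬ r x x := by
    rintro x (⟨h1, h2⟩ | h)
    · exact h2 h1
    · exact sbtw_irrefl_right h
  have htr : ∀ x y z, r x y → r y z → r x z := by
    rintro x y z (⟨h1, h2⟩ | h) (⟨h3, h4⟩ | h')
    · exact Or.inl ⟨h1, h4⟩
    · refine Or.inl ⟨h1, ?_⟩
      rintro rfl
      exact sbtw_irrefl_left_right h'
    · subst h3
      exact absurd h sbtw_irrefl_left_right
    · exact Or.inr (h.trans_right h')
  have htri : ∀ x y, r x y ∨ x = y ∨ r y x := by
    intro x y
    by_cases hxy : x = y
    · exact Or.inr (Or.inl hxy)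
    by_cases hx : x = o
    · exact Or.inl (Or.inl ⟨hx, fun h => hxy (hx.trans h.symm)⟩)
    by_cases hy : y = o
    · exact Or.inr (Or.inr (Or.inl ⟨hy, hx⟩))
    by_cases h : sbtw o x y
    · exact Or.inl (Or.inr h)
    · refine Or.inr (Or.inr (Or.inr ?_))
      rw [sbtw_iff_not_btw] at h ⊢
      push Not at h
      intro h2
      rcases btw_antisymm h h2.cyclic_right
        with h3 | h3 | h3
      · exact hxy h3.symm
      · exact hx h3
      · exact hy h3.symm
  have hsto : IsStrictTotalOrder V r :=
    { trichotomous := fun x y h1 h2 => ((htri x y).resolve_left h1).resolve_right h2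
      irrefl := hirr
      trans := htr }
  have hup : ∀ x y z, r x y → r y z → sbtw x y z := by
    rintro x y z (⟨h1, h2⟩ | h) (⟨h3, h4⟩ | h')
    · exact absurd h3 h2
    · rw [h1]; exact h'
    · subst h3
      exact absurd h sbtw_irrefl_left_right
    · exact (h'.cyclic_left.trans_right h.cyclic_right).cyclic_right
  refine ⟨linearOrderOfSTO r, fun x y z => ?_⟩
  show sbtw x y z ↔ (r x y ∧ r y z) ∨ (r y z ∧ r z x) ∨ (r z x ∧ r x y)
  constructor
  · intro h
    rcases htri x y with h1 | rfl | h1
    · rcases htri y z with h2 | rfl | h2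
      · exact Or.inl ⟨h1, h2⟩
      · exact absurd h sbtw_irrefl_right
      · rcases htri z x with h3 | rfl | h3
        · exact Or.inr (Or.inr ⟨h3, h1⟩)
        · exact absurd h sbtw_irrefl_left_right
        · exact absurd (hup _ _ _ h3 h2).cyclic_left h.not_sbtw
    · exact absurd h sbtw_irrefl_left
    · rcases htri z x with h3 | rfl | h3
      · rcases htri y z with h2 | rfl | h2
        · exact Or.inr (Or.inl ⟨h2, h3⟩)
        · exact absurd h sbtw_irrefl_right
        · exact absurd (hup _ _ _ h2 h1) h.not_sbtw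
      · exact absurd h sbtw_irrefl_left_right
      · exact absurd (hup _ _ _ h1 h3).cyclic_right h.not_sbtw
  · rintro (⟨h1, h2⟩ | ⟨h1, h2⟩ | ⟨h1, h2⟩)
    · exact hup _ _ _ h1 h2
    · exact (hup _ _ _ h1 h2).cyclic_right
    · exact (hup _ _ _ h1 h2).cyclic_left

/-- Two long lists in a linear order contain separated sorted halves. -/
theorem exists_separated {V : Type} [LinearOrder V] (L : ℕ) (hL : 1 ≤ L)
    (fA fB : Fin (2 * L) → V) (hA : Function.Injective fA) (hB : Function.Injective fB)
    (hAB : ∀ a b, fA a ≠ fB b) :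
    ∃ α β : Fin L → Fin (2 * L), StrictMono (fA ∘ α) ∧ StrictMono (fB ∘ β) ∧
      ((∀ a b, fA (α a) < fB (β b)) ∨ (∀ a b, fB (β b) < fA (α a))) := by
  have sA : StrictMono (fA ∘ Tuple.sort fA) :=
    (Tuple.monotone_sort fA).strictMono_of_injective (hA.comp (Tuple.sort fA).injective)
  have sB : StrictMono (fB ∘ Tuple.sort fB) :=
    (Tuple.monotone_sort fB).strictMono_of_injective (hB.comp (Tuple.sort fB).injective)
  let lo : Fin L → Fin (2 * L) := fun a => ⟨a, by omega⟩
  let hi : Fin L → Fin (2 * L) := fun a => ⟨L + a, by omega⟩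
  let mid : Fin (2 * L) := ⟨L - 1, by omega⟩
  have hlo : StrictMono lo := fun a b hab => by
    simp only [lo, Fin.mk_lt_mk]; exact hab
  have hhi : StrictMono hi := fun a b hab => by
    simp only [hi, Fin.mk_lt_mk]
    have : (a : ℕ) < b := hab
    omega
  have h1 : ∀ a, lo a ≤ mid := fun a => by
    simp only [lo, mid, Fin.mk_le_mk]; omega
  have h2 : ∀ a, mid ≤ hi a := fun a => by
    simp only [hi, mid, Fin.mk_le_mk]; omega
  rcases lt_or_gt_of_ne (hAB (Tuple.sort fA mid) (Tuple.sort fB mid)) with h | h
  · refine ⟨Tuple.sort fA ∘ lo, Tuple.sort fB ∘ hi, sA.comp hlo, sB.comp hhi, Or.inl ?_⟩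
    intro a b
    exact lt_of_le_of_lt (sA.monotone (h1 a)) (lt_of_lt_of_le h (sB.monotone (h2 b)))
  · refine ⟨Tuple.sort fA ∘ hi, Tuple.sort fB ∘ lo, sA.comp hhi, sB.comp hlo, Or.inr ?_⟩
    intro a b
    exact lt_of_le_of_lt (sB.monotone (h1 b)) (lt_of_lt_of_le h (sA.monotone (h2 a)))

/-- the bipartite graph of a Boolean matrix -/
def matGraph {N : ℕ} (ω : Fin N × Fin N → Bool) : SimpleGraph (Fin N ⊕ Fin N) where
  Adj x y := match x, y with
    | .inl a, .inr b => ω (a, b) = true
    | .inr b, .inl a => ω (a, b) = true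
    | _, _ => False
  symm := ⟨by rintro (a | a) (b | b) h <;> exact h⟩
  loopless := ⟨by rintro (a | a) h <;> exact h⟩

lemma block_mono {B m : ℕ} (i : Fin B) :
    StrictMono (fun a : Fin m => (finProdFinEquiv (i, a) : Fin (B * m))) := by
  intro a b hab
  have : (a : ℕ) < b := hab
  simp only [Fin.lt_def, finProdFinEquiv_apply_val]
  omega

/-- Ordering property: in every linear order of the vertices, the given pattern appears between
two separated sorted lists. -/
theorem exists_ordering_graph (m : ℕ) (hm : 1 ≤ m) (R : Fin m → Fin m → Prop) :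
    ∃ (n : ℕ) (G : SimpleGraph (Fin n)), 1 ≤ n ∧ G.Colorable 2 ∧
      ∀ l : LinearOrder (Fin n), ∃ u v : Fin m → Fin n,
        (∀ a b, a < b → l.lt (u a) (u b)) ∧ (∀ a b, a < b → l.lt (v a) (v b)) ∧
        (∀ a b, l.lt (u a) (v b)) ∧ (∀ a b, ¬ G.Adj (u a) (u b)) ∧ (∀ a b, ¬ G.Adj (v a) (v b)) ∧
        (∀ a b, G.Adj (u a) (v b) ↔ R a b) := by
  classical
  obtain ⟨B, hB, ω, hω⟩ := exists_matrix m hm
  let L := B * m
  have hL1 : 1 ≤ L := Nat.mul_pos hB hm
  let g : Fin (2 * L) ⊕ Fin (2 * L) ≃ Fin (2 * L + 2 * L) := finSumFinEquiv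
  refine ⟨2 * L + 2 * L, (matGraph ω).comap g.symm, by omega, ?_, ?_⟩
  · refine ⟨SimpleGraph.Coloring.mk
      (fun x => Sum.elim (fun _ => (0 : Fin 2)) (fun _ => 1) (g.symm x)) ?_⟩
    intro x y hxy
    rw [SimpleGraph.comap_adj] at hxy
    generalize g.symm x = x' at *
    generalize g.symm y = y' at *
    rcases x' with a | a <;> rcases y' with b | b
    · exact absurd hxy id
    · simp
    · simp
    · exact absurd hxy id
  · intro l
    obtain ⟨α, β, hα, hβ, hsep⟩ := @exists_separated _ l L hL1 (fun a => g (.inl a))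
      (fun b => g (.inr b)) (g.injective.comp Sum.inl_injective)
      (g.injective.comp Sum.inr_injective) (fun a b h => by simpa using g.injective h)
    have hα' : Function.Injective α := (@StrictMono.injective _ _ _ l.toPreorder _ hα).of_comp
    have hβ' : Function.Injective β := (@StrictMono.injective _ _ _ l.toPreorder _ hβ).of_comp
    have key := hω (α ∘ finProdFinEquiv) (β ∘ finProdFinEquiv)
      (hα'.comp finProdFinEquiv.injective) (hβ'.comp finProdFinEquiv.injective)
    rcases hsep with hsep | hsep
    · obtain ⟨i, j, hij⟩ := key (fun p => decide (R p.1 p.2))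
      refine ⟨fun a => g (.inl (α (finProdFinEquiv (i, a)))),
        fun b => g (.inr (β (finProdFinEquiv (j, b)))), ?_, ?_, ?_, ?_, ?_, ?_⟩
      · intro a b hab
        exact hα (block_mono i hab)
      · intro a b hab
        exact hβ (block_mono j hab)
      · intro a b
        exact hsep _ _
      · intro a b
        simp only [SimpleGraph.comap_adj, Equiv.symm_apply_apply]
        exact id
      · intro a b
        simp only [SimpleGraph.comap_adj, Equiv.symm_apply_apply]
        exact id
      · intro a b
        simp only [SimpleGraph.comap_adj, Equiv.symm_apply_apply]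
        have := hij a b
        simp only [Function.comp] at this
        show ω _ = true ↔ _
        rw [this]
        simp
    · obtain ⟨i, j, hij⟩ := key (fun p => decide (R p.2 p.1))
      refine ⟨fun b => g (.inr (β (finProdFinEquiv (j, b)))),
        fun a => g (.inl (α (finProdFinEquiv (i, a)))), ?_, ?_, ?_, ?_, ?_, ?_⟩
      · intro a b hab
        exact hβ (block_mono j hab)
      · intro a b hab
        exact hα (block_mono i hab)
      · intro a b
        exact hsep _ _
      · intro a b
        simp only [SimpleGraph.comap_adj, Equiv.symm_apply_apply]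
        exact id
      · intro a b
        simp only [SimpleGraph.comap_adj, Equiv.symm_apply_apply]
        exact id
      · intro a b
        simp only [SimpleGraph.comap_adj, Equiv.symm_apply_apply]
        have := hij b a
        simp only [Function.comp] at this
        show ω _ = true ↔ _
        rw [this]
        simp

end Pool.Agent.MP_b6cdd3_co.H71
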