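import Mathlib
import Pool.Agent.MP_b6cdd3_co.H71.Order

/-!
The odd cycle drawn as a circular clique, and the transfer of its proper ordered subgraphs.
-/

namespace Pool.Agent.MP_b6cdd3_co.H71

open Finset

def adjN (m x y : ℕ) : Prop := x + m = y ∨ y + m = x ∨ x + m + 1 = y ∨ y + m + 1 = x

def cycG (m : ℕ) : SimpleGraph (Fin (2 * (m + 1) + 1)) where
  Adj x y := adjN (m + 1) x y
  symm := ⟨fun x y h => by unfold adjN at *; omega⟩
  loopless := ⟨fun x h => by unfold adjN at h; omega⟩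

lemma cycG_not_colorable (m : ℕ) : ¬ (cycG m).Colorable 2 := by
  rintro ⟨c⟩
  have h2 : ∀ a b d : Fin 2, a ≠ b → a ≠ d → b = d := by decide
  have step : ∀ i : ℕ, ∀ hi : i ≤ m + 1,
      c ⟨m + 1, by omega⟩ = c ⟨m + 1 + i, by omega⟩ := by
    intro i
    induction i with
    | zero => intro _; rfl
    | succ i ih =>
      intro hi
      rw [ih (by omega)]
      refine h2 (c ⟨i, by omega⟩) _ _ (c.valid ?_) (c.valid ?_)
      · show adjN (m + 1) i (m + 1 + i)
        unfold adjN; omega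
      · show adjN (m + 1) i (m + 1 + (i + 1))
        unfold adjN; omega
  refine c.valid (v := ⟨m + 1, by omega⟩) (w := ⟨m + 1 + (m + 1), by omega⟩) ?_ (step (m + 1) le_rfl)
  show adjN (m + 1) (m + 1) (m + 1 + (m + 1))
  unfold adjN; omega

lemma exists_line {V : Type} [LinearOrder V] (G : SimpleGraph V) (m : ℕ) (hm : 1 ≤ m)
    (u v : Fin m → V) (hu : ∀ a b, a < b → u a < u b) (hv : ∀ a b, a < b → v a < v b)
    (huv : ∀ a b, u a < v b) (au : ∀ a b, ¬ G.Adj (u a) (u b)) (av : ∀ a b, ¬ G.Adj (v a) (v b))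
    (auv : ∀ a b, G.Adj (u a) (v b) ↔ adjN m a (m + b)) :
    ∃ w : ℕ → V, (∀ x y, x < 2 * m → y < 2 * m → (w x < w y ↔ x < y)) ∧
      (∀ x y, x < 2 * m → y < 2 * m → (G.Adj (w x) (w y) ↔ adjN m x y)) := by
  let w : ℕ → V := fun y => if h : y < m then u ⟨y, h⟩ else
    if h' : y - m < m then v ⟨y - m, h'⟩ else u ⟨0, hm⟩
  have w1 : ∀ y (h : y < m), w y = u ⟨y, h⟩ := fun y h => by simp only [w, h, dif_pos]
  have w2 : ∀ y (_ : ¬ y < m) (h' : y - m < m), w y = v ⟨y - m, h'⟩ := fun y h h' => by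
    simp only [w, h, h', dif_pos, dif_neg, not_false_eq_true]
  have hmono : ∀ x y, y < 2 * m → x < y → w x < w y := by
    intro x y hy hxy
    by_cases hx1 : x < m
    · by_cases hy1 : y < m
      · rw [w1 x hx1, w1 y hy1]
        exact hu _ _ hxy
      · rw [w1 x hx1, w2 y hy1 (by omega)]
        exact huv _ _
    · rw [w2 x hx1 (by omega), w2 y (by omega) (by omega)]
      apply hv
      simp only [Fin.mk_lt_mk]
      omega
  refine ⟨w, fun x y hx hy => ⟨fun h => ?_, hmono x y hy⟩, fun x y hx hy => ?_⟩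
  · rcases lt_trichotomy x y with h1 | rfl | h1
    · exact h1
    · exact absurd h (lt_irrefl _)
    · exact absurd h (lt_asymm (hmono y x hx h1))
  · by_cases hx1 : x < m <;> by_cases hy1 : y < m
    · rw [w1 x hx1, w1 y hy1]
      refine iff_of_false (au _ _) ?_
      unfold adjN; omega
    · rw [w1 x hx1, w2 y hy1 (by omega), auv]
      have : m + (y - m) = y := by omega
      simp only [this]
    · rw [w2 x hx1 (by omega), w1 y hy1, G.adj_comm, auv]
      have : m + (x - m) = x := by omega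
      simp only [this]
      unfold adjN; omega
    · rw [w2 x hx1 (by omega), w2 y hy1 (by omega)]
      refine iff_of_false (av _ _) ?_
      unfold adjN; omega

lemma transfer {V : Type} [LinearOrder V] (G : SimpleGraph V) (m : ℕ) (w : ℕ → V)
    (hw1 : ∀ x y, x < 2 * (m + 1) → y < 2 * (m + 1) → (w x < w y ↔ x < y))
    (hw2 : ∀ x y, x < 2 * (m + 1) → y < 2 * (m + 1) → (G.Adj (w x) (w y) ↔ adjN (m + 1) x y))
    (s : ℕ) (hs : s ≤ 2 * (m + 1)) (H : SimpleGraph (Fin s)) (e : H ↪g cycG m) :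
    ∃ e' : H ↪g G, ∀ a b d : Fin s,
      ((e a < e b ∧ e b < e d) ∨ (e b < e d ∧ e d < e a) ∨ (e d < e a ∧ e a < e b)) ↔
      ((e' a < e' b ∧ e' b < e' d) ∨ (e' b < e' d ∧ e' d < e' a) ∨
        (e' d < e' a ∧ e' a < e' b)) := by
  have hns : ¬ Function.Surjective e := by
    intro h
    have := Fintype.card_le_of_surjective _ h
    simp only [Fintype.card_fin] at this
    omega
  obtain ⟨v0, hv0⟩ := not_forall.1 hns
  have hne : ∀ a, (e a : ℕ) ≠ v0 := fun a h => hv0 ⟨a, Fin.ext h⟩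
  let ρ : Fin s → ℕ := fun a =>
    if (v0 : ℕ) < e a then e a - v0 - 1 else e a + 2 * (m + 1) - v0
  have hρ : ∀ a, ((v0 : ℕ) < e a ∧ ρ a + v0 + 1 = e a) ∨
      ((e a : ℕ) < v0 ∧ ρ a + v0 = e a + 2 * (m + 1)) := by
    intro a
    have h1 := hne a
    have h2 := v0.2
    simp only [ρ]
    split_ifs with h <;> omega
  have hlt : ∀ a, ρ a < 2 * (m + 1) := by
    intro a
    have h1 := hρ a
    have h2 := (e a).2
    omega
  refine ⟨⟨⟨fun a => w (ρ a), ?_⟩, ?_⟩, ?_⟩
  · intro a b hab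
    have hab' : w (ρ a) = w (ρ b) := hab
    have h1 := hw1 _ _ (hlt a) (hlt b)
    have h2 := hw1 _ _ (hlt b) (hlt a)
    rw [hab'] at h1 h2
    simp only [lt_self_iff_false, false_iff, not_lt] at h1 h2
    apply e.injective
    apply Fin.ext
    have h3 := hρ a
    have h4 := hρ b
    have h5 := (e a).2
    have h6 := (e b).2
    omega
  · intro a b
    show G.Adj (w (ρ a)) (w (ρ b)) ↔ H.Adj a b
    rw [hw2 _ _ (hlt a) (hlt b), ← e.map_rel_iff]
    show _ ↔ adjN (m + 1) (e a) (e b)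
    have h3 := hρ a
    have h4 := hρ b
    have h5 := (e a).2
    have h6 := (e b).2
    have h7 := v0.2
    unfold adjN
    omega
  · intro a b d
    show _ ↔ ((w (ρ a) < w (ρ b) ∧ w (ρ b) < w (ρ d)) ∨ (w (ρ b) < w (ρ d) ∧ w (ρ d) < w (ρ a)) ∨
        (w (ρ d) < w (ρ a) ∧ w (ρ a) < w (ρ b)))
    rw [hw1 _ _ (hlt a) (hlt b), hw1 _ _ (hlt b) (hlt d), hw1 _ _ (hlt d) (hlt a)]
    simp only [Fin.lt_def]
    have h3 := hρ a
    have h4 := hρ b
    have h4' := hρ d
    have h5 := (e a).2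
    have h6 := (e b).2
    have h6' := (e d).2
    omega

/-- For each `m` there is a bipartite graph all of whose circular orderings contain every
circularly ordered proper subgraph of the odd cycle `cycG m`. -/
theorem exists_universal (m : ℕ) : ∃ (n : ℕ) (G : SimpleGraph (Fin n)), G.Colorable 2 ∧
    ∀ c : CircularOrder (Fin n), ∀ (s : ℕ) (_ : s ≤ 2 * (m + 1)) (H : SimpleGraph (Fin s))
      (e : H ↪g cycG m), ∃ e' : H ↪g G, ∀ a b d : Fin s,
      ((e a < e b ∧ e b < e d) ∨ (e b < e d ∧ e d < e a) ∨ (e d < e a ∧ e a < e b)) ↔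
        c.sbtw (e' a) (e' b) (e' d) := by
  obtain ⟨n, G, hn, hG, hord⟩ := exists_ordering_graph (m + 1) (by omega)
    (fun a b => adjN (m + 1) a (m + 1 + b))
  refine ⟨n, G, hG, fun c s hs H e => ?_⟩
  obtain ⟨l, hl⟩ := @exists_cut (Fin n) c ⟨0, hn⟩
  obtain ⟨u, v, h1, h2, h3, h4, h5, h6⟩ := hord l
  obtain ⟨w, hw1, hw2⟩ := @exists_line (Fin n) l G (m + 1) (by omega) u v h1 h2 h3 h4 h5 h6
  obtain ⟨e', he'⟩ := @transfer (Fin n) l G m w hw1 hw2 s hs H e
  exact ⟨e', fun a b d => (he' a b d).trans (hl _ _ _).symm⟩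

/-- A graph with a linear order without increasing two-edge path is bipartite. -/
lemma colorable_of_order {V : Type} [LinearOrder V] (G : SimpleGraph V)
    (h : ∀ x y z, x < y → y < z → G.Adj x y → ¬ G.Adj y z) : G.Colorable 2 := by
  classical
  refine ⟨SimpleGraph.Coloring.mk (fun y => if ∃ x, x < y ∧ G.Adj x y then (1 : Fin 2) else 0) ?_⟩
  have key : ∀ y z, y < z → G.Adj y z →
      (if ∃ x, x < y ∧ G.Adj x y then (1 : Fin 2) else 0) ≠
      (if ∃ x, x < z ∧ G.Adj x z then (1 : Fin 2) else 0) := by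
    intro y z hyz hadj
    rw [if_neg, if_pos ⟨y, hyz, hadj⟩]
    · decide
    · rintro ⟨x, hx1, hx2⟩
      exact h x y z hx1 hyz hx2 hadj
  intro y z hadj
  rcases lt_trichotomy y z with h1 | h1 | h1
  · exact key y z h1 hadj
  · exact absurd h1 hadj.ne
  · exact (key z y h1 hadj.symm).symm

lemma exists_order_of_colorable {n : ℕ} (G : SimpleGraph (Fin n)) (h : G.Colorable 2) :
    ∃ l : LinearOrder (Fin n), ∀ x y z, l.lt x y → l.lt y z → G.Adj x y → ¬ G.Adj y z := by
  obtain ⟨c⟩ := h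
  refine ⟨LinearOrder.lift' (fun x => toLex (c x, x)) (fun x y h => ?_), ?_⟩
  · exact congrArg (fun p => (ofLex p).2) h
  · intro x y z hxy hyz a1 a2
    have h1 : toLex (c x, x) < toLex (c y, y) := hxy
    have h2 : toLex (c y, y) < toLex (c z, z) := hyz
    rw [Prod.Lex.toLex_lt_toLex] at h1 h2
    have b1 := c.valid a1
    have b2 := c.valid a2
    have h3 : c x < c y := h1.resolve_right (fun h => b1 h.1)
    have h4 : c y < c z := h2.resolve_right (fun h => b2 h.1)
    have := (c z).2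
    rw [Fin.lt_def] at h3 h4
    omega

lemma triple_embedding {V : Type} [LinearOrder V] (G : SimpleGraph V) (x y z : V) (hxy : x < y)
    (hyz : y < z) : ∃ e : G.comap ![x, y, z] ↪g G, ∀ a b : Fin 3, a < b ↔ e a < e b := by
  have hsm : StrictMono ![x, y, z] := by
    rw [Fin.strictMono_iff_lt_succ]
    intro i
    fin_cases i
    · exact hxy
    · exact hyz
  exact ⟨SimpleGraph.Embedding.comap ⟨![x, y, z], hsm.injective⟩ G,
    fun a b => hsm.lt_iff_lt.symm⟩

end Pool.Agent.MP_b6cdd3_co.H71
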